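import Mathlib

/-!
King and rook against king on an `m × n` board (`m`, `n` possibly infinite), where the black king
may leave the board across the east edge or the north edge.
-/

namespace X294.KR

/-- Squares are pairs (file, rank); a1 is `(1, 1)`. -/
abbrev Sq := ℕ × ℕ

/-- The square `s` belongs to the board with `m` files and `n` ranks (`⊤` = unboundedly many). -/
def OnBoard (m n : ℕ∞) (s : Sq) : Prop :=
  1 ≤ s.1 ∧ 1 ≤ s.2 ∧ (s.1 : ℕ∞) ≤ m ∧ (s.2 : ℕ∞) ≤ n

/-- `s` and `t` are one king's step apart. -/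
def Step (s t : Sq) : Prop :=
  s ≠ t ∧ s.1 ≤ t.1 + 1 ∧ t.1 ≤ s.1 + 1 ∧ s.2 ≤ t.2 + 1 ∧ t.2 ≤ s.2 + 1

/-- `s` and `t` are different squares of the same file or rank. -/
def SameLine (s t : Sq) : Prop := s ≠ t ∧ (s.1 = t.1 ∨ s.2 = t.2)

/-- `u` lies strictly between `s` and `t` on a common file or rank. -/
def Between (s u t : Sq) : Prop :=
  (s.1 = u.1 ∧ u.1 = t.1 ∧ ((s.2 < u.2 ∧ u.2 < t.2) ∨ (t.2 < u.2 ∧ u.2 < s.2))) ∨
  (s.2 = u.2 ∧ u.2 = t.2 ∧ ((s.1 < u.1 ∧ u.1 < t.1) ∨ (t.1 < u.1 ∧ u.1 < s.1)))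

/-- A position: squares of the white king, the white rook and the black king. -/
@[ext] structure Pos where
  wk : Sq
  wr : Sq
  bk : Sq

/-- White (king on `k`, rook on `r`) attacks the square `t`, for a black king standing on `t` or
moving to `t` (only the white king can block the line of the rook). -/
def Attacks (k r t : Sq) : Prop := Step k t ∨ (SameLine r t ∧ ¬ Between r k t)

/-- The moves of White. -/
inductive WhiteMove (m n : ℕ∞) (p : Pos) : Pos → Prop
  | king (t : Sq) : OnBoard m n t → Step p.wk t → t ≠ p.wr → t ≠ p.bk → ¬ Step t p.bk →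
      WhiteMove m n p ⟨t, p.wr, p.bk⟩
  | rook (t : Sq) : OnBoard m n t → SameLine p.wr t → t ≠ p.wk → t ≠ p.bk →
      ¬ Between p.wr p.wk t → ¬ Between p.wr p.bk t → WhiteMove m n p ⟨p.wk, t, p.bk⟩

/-- The moves of Black inside the board: the black king goes to `t` (it captures the rook if
`t = p.wr`). -/
def BlackMove (m n : ℕ∞) (p : Pos) (t : Sq) : Prop :=
  OnBoard m n t ∧ Step p.bk t ∧ t ≠ p.wk ∧ ¬ Attacks p.wk p.wr t

/-- The black king stands on the last file or on the last rank: if Black is to move, it leaves the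
board, which wins for Black. -/
def CanExit (m n : ℕ∞) (p : Pos) : Prop := (p.bk.1 : ℕ∞) = m ∨ (p.bk.2 : ℕ∞) = n

/-- White to move in `p` can force checkmate on the `m × n` board: White has a move to a position
`q` in which Black cannot leave the board, is not stalemated (is in check or has a move), cannot
capture the rook, and in which White can again force checkmate after each move of Black
(if Black has no move then this says that `q` is checkmate). -/
inductive Wins (m n : ℕ∞) : Pos → Prop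
  | mk (p q : Pos) : WhiteMove m n p q → ¬ CanExit m n q →
      (Attacks q.wk q.wr q.bk ∨ ∃ t, BlackMove m n q t) →
      (∀ t, BlackMove m n q t → t ≠ q.wr) →
      (∀ t, BlackMove m n q t → Wins m n ⟨q.wk, q.wr, t⟩) → Wins m n p

/-- The starting position: white king a1, white rook b2, black king c3. -/
def start : Pos := ⟨(1, 1), (2, 2), (3, 3)⟩

/-! ### Symmetry -/

/-- Reflection in the main diagonal. -/
def Pos.swap (p : Pos) : Pos := ⟨p.wk.swap, p.wr.swap, p.bk.swap⟩

theorem OnBoard.swap {m n : ℕ∞} {s : Sq} (h : OnBoard m n s) : OnBoard n m s.swap :=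
  ⟨h.2.1, h.1, h.2.2.2, h.2.2.1⟩

theorem Step.swap {s t : Sq} (h : Step s t) : Step s.swap t.swap := by
  refine ⟨fun e => h.1 ?_, h.2.2.2.1, h.2.2.2.2, h.2.1, h.2.2.1⟩
  have := congrArg Prod.swap e
  simpa using this

theorem SameLine.swap {s t : Sq} (h : SameLine s t) : SameLine s.swap t.swap := by
  refine ⟨fun e => h.1 ?_, h.2.symm⟩
  have := congrArg Prod.swap e
  simpa using this

theorem Between.swap {s u t : Sq} (h : Between s u t) : Between s.swap u.swap t.swap :=
  Or.symm h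

theorem Attacks.swap {k r t : Sq} (h : Attacks k r t) : Attacks k.swap r.swap t.swap := by
  rcases h with h | ⟨h1, h2⟩
  · exact Or.inl h.swap
  · refine Or.inr ⟨h1.swap, fun h3 => h2 ?_⟩
    simpa using h3.swap

theorem WhiteMove.swap {m n : ℕ∞} {p q : Pos} (h : WhiteMove m n p q) :
    WhiteMove n m p.swap q.swap := by
  rcases h with ⟨t, h1, h2, h3, h4, h5⟩ | ⟨t, h1, h2, h3, h4, h5, h6⟩
  · refine WhiteMove.king (p := p.swap) t.swap h1.swap h2.swap (fun e => h3 ?_) (fun e => h4 ?_)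
      (fun e => h5 ?_)
    · simpa [Pos.swap] using congrArg Prod.swap e
    · simpa [Pos.swap] using congrArg Prod.swap e
    · simpa [Pos.swap] using e.swap
  · refine WhiteMove.rook (p := p.swap) t.swap h1.swap h2.swap (fun e => h3 ?_) (fun e => h4 ?_)
      (fun e => h5 ?_) (fun e => h6 ?_)
    · simpa [Pos.swap] using congrArg Prod.swap e
    · simpa [Pos.swap] using congrArg Prod.swap e
    · simpa [Pos.swap] using e.swap
    · simpa [Pos.swap] using e.swap

theorem BlackMove.swap {m n : ℕ∞} {p : Pos} {t : Sq} (h : BlackMove m n p t) :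
    BlackMove n m p.swap t.swap := by
  refine ⟨h.1.swap, h.2.1.swap, fun e => h.2.2.1 ?_, fun e => h.2.2.2 ?_⟩
  · simpa [Pos.swap] using congrArg Prod.swap e
  · simpa [Pos.swap] using e.swap

theorem Pos.swap_swap (p : Pos) : p.swap.swap = p := by
  cases p; simp [Pos.swap]

theorem Wins.swap {m n : ℕ∞} {p : Pos} (h : Wins m n p) : Wins n m p.swap := by
  induction h with
  | mk p q h1 h2 h3 h4 h5 ih =>
    have key : ∀ t, BlackMove n m q.swap t → BlackMove m n q t.swap := fun t ht => by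
      have := ht.swap
      rwa [Pos.swap_swap] at this
    refine Wins.mk p.swap q.swap h1.swap (fun e => h2 e.symm) ?_ ?_ ?_
    · rcases h3 with h3 | ⟨t, ht⟩
      · exact Or.inl h3.swap
      · exact Or.inr ⟨t.swap, ht.swap⟩
    · intro t ht e
      refine h4 _ (key t ht) ?_
      rw [e]; simp [Pos.swap]
    · intro t ht
      have := ih _ (key t ht)
      simpa [Pos.swap] using this

/-! ### A larger board is better for White -/

theorem OnBoard.mono {m n m' n' : ℕ∞} (hm : m ≤ m') (hn : n ≤ n') {s : Sq}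
    (h : OnBoard m n s) : OnBoard m' n' s :=
  ⟨h.1, h.2.1, h.2.2.1.trans hm, h.2.2.2.trans hn⟩

theorem WhiteMove.mono {m n m' n' : ℕ∞} (hm : m ≤ m') (hn : n ≤ n') {p q : Pos}
    (h : WhiteMove m n p q) : WhiteMove m' n' p q := by
  rcases h with ⟨t, h1, h2, h3, h4, h5⟩ | ⟨t, h1, h2, h3, h4, h5, h6⟩
  · exact WhiteMove.king t (h1.mono hm hn) h2 h3 h4 h5
  · exact WhiteMove.rook t (h1.mono hm hn) h2 h3 h4 h5 h6

theorem WhiteMove.bk_eq {m n : ℕ∞} {p q : Pos} (h : WhiteMove m n p q) : q.bk = p.bk := by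
  rcases h with ⟨t, h1, h2, h3, h4, h5⟩ | ⟨t, h1, h2, h3, h4, h5, h6⟩ <;> rfl

theorem Wins.mono {m n m' n' : ℕ∞} (hm : m ≤ m') (hn : n ≤ n') {p : Pos}
    (h : Wins m n p) (hb : OnBoard m n p.bk) : Wins m' n' p := by
  induction h with
  | mk p q h1 h2 h3 h4 h5 ih =>
    have hq : OnBoard m n q.bk := by rw [h1.bk_eq]; exact hb
    have hx : ((q.bk.1 + 1 : ℕ) : ℕ∞) ≤ m := by
      have : (q.bk.1 : ℕ∞) < m := lt_of_le_of_ne hq.2.2.1 (fun e => h2 (Or.inl e))
      have := Order.add_one_le_of_lt this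
      exact_mod_cast this
    have hy : ((q.bk.2 + 1 : ℕ) : ℕ∞) ≤ n := by
      have : (q.bk.2 : ℕ∞) < n := lt_of_le_of_ne hq.2.2.2 (fun e => h2 (Or.inr e))
      have := Order.add_one_le_of_lt this
      exact_mod_cast this
    have key : ∀ t, BlackMove m' n' q t → BlackMove m n q t := by
      intro t ht
      refine ⟨⟨ht.1.1, ht.1.2.1, le_trans ?_ hx, le_trans ?_ hy⟩, ht.2⟩
      · exact_mod_cast ht.2.1.2.2.1
      · exact_mod_cast ht.2.1.2.2.2.2
    refine Wins.mk p q (h1.mono hm hn) ?_ ?_ (fun t ht => h4 t (key t ht))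
      (fun t ht => ih t (key t ht) (key t ht).1)
    · rintro (e | e)
      · have h6 : ((q.bk.1 + 1 : ℕ) : ℕ∞) ≤ (q.bk.1 : ℕ∞) := by rw [e]; exact hx.trans hm
        have : q.bk.1 + 1 ≤ q.bk.1 := by exact_mod_cast h6
        omega
      · have h6 : ((q.bk.2 + 1 : ℕ) : ℕ∞) ≤ (q.bk.2 : ℕ∞) := by rw [e]; exact hy.trans hn
        have : q.bk.2 + 1 ≤ q.bk.2 := by exact_mod_cast h6
        omega
    · rcases h3 with h3 | ⟨t, ht⟩
      · exact Or.inl h3
      · exact Or.inr ⟨t, ht.1.mono hm hn, ht.2⟩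

/-! ### Safe sets for Black -/

/-- Black to move in `q` can leave the board, or capture the rook, or reach the set `S`. -/
def Resource (m n : ℕ∞) (S : Pos → Prop) (q : Pos) : Prop :=
  CanExit m n q ∨ ∃ t, BlackMove m n q t ∧ (t = q.wr ∨ S ⟨q.wk, q.wr, t⟩)

theorem not_wins_of_safe {m n : ℕ∞} {S : Pos → Prop}
    (h : ∀ p, S p → ∀ q, WhiteMove m n p q → Resource m n S q) {p : Pos}
    (hw : Wins m n p) : ¬ S p := by
  induction hw with
  | mk p q h1 h2 h3 h4 h5 ih =>
    intro hp
    rcases h p hp q h1 with h6 | ⟨t, h6, h7 | h7⟩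
    · exact h2 h6
    · exact h4 t h6 h7
    · exact ih t h6 h7

end X294.KR
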