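import Pool.Agent.X294.KR.NonWin8

/-! White cannot force checkmate on the `10 × 10` board. -/

namespace X294.KR

def safe10 (x y a b cu cv : ℕ) : Bool :=
  Nat.beq x 10 || Nat.beq y 10 || (Nat.beq x 9 && Nat.ble b y) ||
    (Nat.ble x 8 && Nat.ble (b + 11) (x + y)) || (Nat.beq y 9 && Nat.ble a x) ||
    (Nat.ble y 8 && Nat.ble (a + 11) (x + y)) || Nat.testBit (tab10 x y a b) (5 * cu + cv)

def bok10 (x y a b cu cv : ℕ) : Bool :=
  dirs.any fun d =>
    let x' := x + d.1 - 1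
    let y' := y + d.2 - 1
    Nat.ble 1 x' && Nat.ble x' 10 && Nat.ble 1 y' && Nat.ble y' 10 &&
      !(nearB a x' && nearB b y') &&
      ((Nat.beq cu (d.1 + 1) && Nat.beq cv (d.2 + 1)) ||
        (!Nat.beq cu (d.1 + 1) && !Nat.beq cv (d.2 + 1) &&
          (updL d.1 cu).all fun c1 => (updL d.2 cv).all fun c2 => safe10 x' y' a b c1 c2))

def stateOK10 (x y a b cu cv : ℕ) : Bool :=
  ([0, 1, 2].all fun i => [0, 1, 2].all fun j =>
    let a' := a + i - 1
    let b' := b + j - 1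
    (Nat.beq i 1 && Nat.beq j 1) || !(Nat.ble 1 a' && Nat.ble a' 10) ||
      !(Nat.ble 1 b' && Nat.ble b' 10) ||
      (nearB a' x && nearB b' y) || bok10 x y a' b' cu cv) &&
  ([0, 1, 2, 3, 4].all fun c => bok10 x y a b c cv && bok10 x y a b cu c)

def check10 : Bool :=
  [1, 2, 3, 4, 5, 6, 7, 8, 9].all fun x => [1, 2, 3, 4, 5, 6, 7, 8, 9].all fun y =>
    [1, 2, 3, 4, 5, 6, 7, 8, 9, 10].all fun a => [1, 2, 3, 4, 5, 6, 7, 8, 9, 10].all fun b =>
      Nat.beq (tab10 x y a b) 0 ||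
        [0, 1, 2, 3, 4].all fun cu => [0, 1, 2, 3, 4].all fun cv =>
          !Nat.testBit (tab10 x y a b) (5 * cu + cv) || stateOK10 x y a b cu cv

theorem check10_true : check10 = true := by decide +kernel

/-- Safe positions (White to move) of the `10 × 10` board. -/
def S10 (p : Pos) : Prop :=
  OnBoard 10 10 p.bk ∧ OnBoard 10 10 p.wk ∧ ¬ (Near p.wk.1 p.bk.1 ∧ Near p.wk.2 p.bk.2) ∧
      safe10 p.bk.1 p.bk.2 p.wk.1 p.wk.2 (cls p.wr.1 p.bk.1) (cls p.wr.2 p.bk.2) = true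

theorem onBoard10 {s : Sq} : OnBoard 10 10 s ↔ (1 ≤ s.1 ∧ 1 ≤ s.2 ∧ s.1 ≤ 10 ∧ s.2 ≤ 10) := by
  unfold OnBoard
  have h1 : ((s.1 : ℕ∞) ≤ 10) ↔ s.1 ≤ 10 := by
    rw [show (10 : ℕ∞) = ((10 : ℕ) : ℕ∞) from rfl]; exact Nat.cast_le
  have h2 : ((s.2 : ℕ∞) ≤ 10) ↔ s.2 ≤ 10 := by
    rw [show (10 : ℕ∞) = ((10 : ℕ) : ℕ∞) from rfl]; exact Nat.cast_le
  rw [h1, h2]

theorem bok10_resource {a b u v x y : ℕ} (hx : 1 ≤ x) (hy : 1 ≤ y)
    (hwk : OnBoard 10 10 (a, b))
    (h : bok10 x y a b (cls u x) (cls v y) = true) :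
    Resource 10 10 S10 ⟨(a, b), (u, v), (x, y)⟩ := by
  unfold bok10 at h
  rw [List.any_eq_true] at h
  obtain ⟨⟨i, j⟩, hd, h⟩ := h
  obtain ⟨d1, d2, d3⟩ := dirs_spec hd
  simp only at d1 d2 d3
  simp only [Bool.and_eq_true, Bool.or_eq_true, Bool.not_eq_true', Bool.and_eq_false_iff] at h
  obtain ⟨⟨⟨⟨⟨h1, h2⟩, h5⟩, h6⟩, h3⟩, h4⟩ := h
  rw [Nat.ble_eq] at h1 h2 h5 h6
  have hk : ¬ (Near a (x + i - 1) ∧ Near b (y + j - 1)) := by
    rintro ⟨k1, k2⟩
    rcases h3 with h3 | h3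
    · rw [nearB_iff.mpr k1] at h3
      simp at h3
    · rw [nearB_iff.mpr k2] at h3
      simp at h3
  have hb : OnBoard 10 10 (x + i - 1, y + j - 1) := onBoard10.mpr ⟨h1, h5, h2, h6⟩
  have cu : cls u x = i + 1 ↔ u = x + i - 1 := cls_eq d1 (by omega)
  have cv : cls v y = j + 1 ↔ v = y + j - 1 := cls_eq d2 (by omega)
  refine resource_of (x + i - 1) (y + j - 1) hb (by omega) (by omega) (by omega) (by omega)
    (by omega) hk ?_
  rcases h4 with ⟨g1, g2⟩ | ⟨⟨g1, g2⟩, g3⟩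
  · left
    have g1 := Nat.eq_of_beq_eq_true g1
    have g2 := Nat.eq_of_beq_eq_true g2
    exact ⟨cu.mp g1, cv.mp g2⟩
  · right
    have g1 := Nat.ne_of_beq_eq_false g1
    have g2 := Nat.ne_of_beq_eq_false g2
    refine ⟨fun e => g1 (cu.mpr e), fun e => g2 (cv.mpr e), hb, hwk, hk, ?_⟩
    rw [List.all_eq_true] at g3
    have g4 := g3 _ (cls_upd (v := u) (y' := x + i - 1) d1 (by omega))
    rw [List.all_eq_true] at g4
    exact g4 _ (cls_upd (v := v) (y' := y + j - 1) d2 (by omega))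

theorem T10_resource {a b u v x y : ℕ} (hx : 1 ≤ x) (hy : 1 ≤ y) (hy9 : y ≤ 9)
    (hwk : OnBoard 10 10 (a, b)) (hk : ¬ (Near a x ∧ Near b y))
    (hT : (x + 1 = 10 ∧ b ≤ y + 1) ∨ (x + 2 ≤ 10 ∧ b + 10 ≤ x + y)) :
    Resource 10 10 S10 ⟨(a, b), (u, v), (x, y)⟩ := by
  have hw := onBoard10.mp hwk
  simp only at hw
  have hyn : ((y : ℕ) : ℕ∞) < 10 := by
    have : y < 10 := by omega
    exact_mod_cast this
  refine T_resource (m := 10) hx hy hyn hw.2.2.1 hk hT ?_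
  intro x' y' hb hk' hT'
  refine ⟨hb, hwk, hk', ?_⟩
  unfold safe10
  simp only [Bool.or_eq_true, Bool.and_eq_true, Nat.beq_eq, Nat.ble_eq]
  have hT'' : x' = 10 ∨ y' = 10 ∨ (x' + 1 = 10 ∧ b ≤ y') ∨ (x' + 2 ≤ 10 ∧ b + 10 + 1 ≤ x' + y') := by
    rcases hT' with h | h | h | h
    · exact Or.inl h
    · right; left
      exact_mod_cast h
    · exact Or.inr (Or.inr (Or.inl h))
    · exact Or.inr (Or.inr (Or.inr h))
  rcases hT'' with h | h | h | h
  · exact Or.inl (Or.inl (Or.inl (Or.inl (Or.inl (Or.inl h)))))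
  · exact Or.inl (Or.inl (Or.inl (Or.inl (Or.inl (Or.inr h)))))
  · exact Or.inl (Or.inl (Or.inl (Or.inl (Or.inr ⟨by omega, h.2⟩))))
  · exact Or.inl (Or.inl (Or.inl (Or.inr ⟨by omega, by omega⟩)))

theorem T10_resource' {a b u v x y : ℕ} (hx : 1 ≤ x) (hy : 1 ≤ y) (hx9 : x ≤ 9)
    (hwk : OnBoard 10 10 (a, b)) (hk : ¬ (Near a x ∧ Near b y))
    (hT : (y + 1 = 10 ∧ a ≤ x + 1) ∨ (y + 2 ≤ 10 ∧ a + 10 ≤ x + y)) :
    Resource 10 10 S10 ⟨(a, b), (u, v), (x, y)⟩ := by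
  have hw := onBoard10.mp hwk
  simp only at hw
  have hxn : ((x : ℕ) : ℕ∞) < 10 := by
    have : x < 10 := by omega
    exact_mod_cast this
  have key : Resource 10 10 (fun p => S10 p.swap) ⟨(b, a), (v, u), (y, x)⟩ := by
    refine T_resource (m := 10) hy hx hxn hw.2.2.2 (fun h => hk h.symm) (by omega) ?_
    intro y' x' hb hk' hT'
    refine ⟨hb.swap, hwk, fun h => hk' h.symm, ?_⟩
    show safe10 x' y' a b (cls u x') (cls v y') = true
    unfold safe10
    simp only [Bool.or_eq_true, Bool.and_eq_true, Nat.beq_eq, Nat.ble_eq]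
    have hT'' : y' = 10 ∨ x' = 10 ∨ (y' + 1 = 10 ∧ a ≤ x') ∨
        (y' + 2 ≤ 10 ∧ a + 10 + 1 ≤ y' + x') := by
      rcases hT' with h | h | h | h
      · exact Or.inl h
      · right; left
        exact_mod_cast h
      · exact Or.inr (Or.inr (Or.inl h))
      · exact Or.inr (Or.inr (Or.inr h))
    rcases hT'' with h | h | h | h
    · exact Or.inl (Or.inl (Or.inl (Or.inl (Or.inl (Or.inr h)))))
    · exact Or.inl (Or.inl (Or.inl (Or.inl (Or.inl (Or.inl h)))))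
    · exact Or.inl (Or.inl (Or.inr ⟨by omega, h.2⟩))
    · exact Or.inl (Or.inr ⟨by omega, by omega⟩)
  have := key.swap
  simpa [Pos.swap] using this

theorem S10_closed (p : Pos) (hp : S10 p) (q : Pos) (hq : WhiteMove 10 10 p q) :
    Resource 10 10 S10 q := by
  obtain ⟨⟨a, b⟩, ⟨u, v⟩, ⟨x, y⟩⟩ := p
  obtain ⟨hb, hw, hk, hs⟩ := hp
  simp only at hb hw hk hs
  have hb' := onBoard10.mp hb
  have hw' := onBoard10.mp hw
  simp only at hb' hw'
  obtain ⟨hx1, hy1, hx10, hy10⟩ := hb'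
  obtain ⟨ha1, hb1, ha10, hb10⟩ := hw'
  by_cases h8 : x = 10
  · left; left
    rw [hq.bk_eq]
    simp [h8]
  by_cases h9 : y = 10
  · left; right
    rw [hq.bk_eq]
    simp [h9]
  unfold safe10 at hs
  simp only [Bool.or_eq_true, Bool.and_eq_true, Nat.ble_eq, Nat.beq_eq] at hs
  rcases hs with (((((hs | hs) | hs) | hs) | hs) | hs) | htab
  · exact absurd hs h8
  · exact absurd hs h9
  · rcases whiteMove_cases hq with ⟨a', b', g1, g2, g3, g4, g5, g6, g7, rfl⟩ | ⟨u', v', g1, rfl⟩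
    · exact T10_resource hx1 hy1 (by omega) g1 g7 (by omega)
    · exact T10_resource hx1 hy1 (by omega) hw hk (by omega)
  · rcases whiteMove_cases hq with ⟨a', b', g1, g2, g3, g4, g5, g6, g7, rfl⟩ | ⟨u', v', g1, rfl⟩
    · exact T10_resource hx1 hy1 (by omega) g1 g7 (by omega)
    · exact T10_resource hx1 hy1 (by omega) hw hk (by omega)
  · rcases whiteMove_cases hq with ⟨a', b', g1, g2, g3, g4, g5, g6, g7, rfl⟩ | ⟨u', v', g1, rfl⟩
    · exact T10_resource' hx1 hy1 (by omega) g1 g7 (by omega)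
    · exact T10_resource' hx1 hy1 (by omega) hw hk (by omega)
  · rcases whiteMove_cases hq with ⟨a', b', g1, g2, g3, g4, g5, g6, g7, rfl⟩ | ⟨u', v', g1, rfl⟩
    · exact T10_resource' hx1 hy1 (by omega) g1 g7 (by omega)
    · exact T10_resource' hx1 hy1 (by omega) hw hk (by omega)
  · have hc := check10_true
    unfold check10 at hc
    simp only [List.all_eq_true] at hc
    have hcu := cls_le u x
    have hcv := cls_le v y
    have hmem5 : ∀ c, c ≤ 4 → c ∈ [0, 1, 2, 3, 4] := by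
      intro c hc
      have : c = 0 ∨ c = 1 ∨ c = 2 ∨ c = 3 ∨ c = 4 := by omega
      simpa using this
    have hmem9 : ∀ c, 1 ≤ c → c ≤ 9 → c ∈ [1, 2, 3, 4, 5, 6, 7, 8, 9] := by
      intro c hc1 hc9
      have : c = 1 ∨ c = 2 ∨ c = 3 ∨ c = 4 ∨ c = 5 ∨ c = 6 ∨ c = 7 ∨ c = 8 ∨ c = 9 := by omega
      simpa only [List.mem_cons, List.not_mem_nil, or_false] using this
    have hmem10 : ∀ c, 1 ≤ c → c ≤ 10 → c ∈ [1, 2, 3, 4, 5, 6, 7, 8, 9, 10] := by
      intro c hc1 hc9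
      have : c = 1 ∨ c = 2 ∨ c = 3 ∨ c = 4 ∨ c = 5 ∨ c = 6 ∨ c = 7 ∨ c = 8 ∨ c = 9 ∨
        c = 10 := by omega
      simpa only [List.mem_cons, List.not_mem_nil, or_false] using this
    have h9 := hc x (hmem9 _ hx1 (by omega)) y (hmem9 _ hy1 (by omega)) a
      (hmem10 _ ha1 ha10) b (hmem10 _ hb1 hb10)
    rw [Bool.or_eq_true] at h9
    rcases h9 with h9 | h9
    · rw [Nat.eq_of_beq_eq_true h9] at htab
      simp at htab
    simp only [List.all_eq_true] at h9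
    have h9 := h9 (cls u x) (hmem5 _ hcu) (cls v y) (hmem5 _ hcv)
    rw [htab] at h9
    simp only [Bool.not_true, Bool.false_or] at h9
    unfold stateOK10 at h9
    simp only [Bool.and_eq_true, List.all_eq_true] at h9
    obtain ⟨hking, hrook⟩ := h9
    rcases whiteMove_cases hq with ⟨a', b', g1, g2, g3, g4, g5, g6, g7, rfl⟩ | ⟨u', v', g1, rfl⟩
    · have g1' := onBoard10.mp g1
      simp only at g1'
      have hmem3 : ∀ c, c ≤ 2 → c ∈ [0, 1, 2] := by
        intro c hc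
        have : c = 0 ∨ c = 1 ∨ c = 2 := by omega
        simpa using this
      have hk1 := hking (a' + 1 - a) (hmem3 _ (by omega)) (b' + 1 - b) (hmem3 _ (by omega))
      have e1 : a + (a' + 1 - a) - 1 = a' := by omega
      have e2 : b + (b' + 1 - b) - 1 = b' := by omega
      rw [e1, e2] at hk1
      simp only [Bool.or_eq_true, Bool.and_eq_true, Bool.not_eq_true', Nat.beq_eq] at hk1
      refine bok10_resource hx1 hy1 g1 ?_
      have nb : ∀ c d : ℕ, c ≤ d → Nat.ble c d = false → False := fun c d h1 h2 => by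
        rw [Nat.ble_eq.mpr h1] at h2; exact absurd h2 (by simp)
      rcases hk1 with (((hk1 | hk1) | hk1) | hk1) | hk1
      · exact absurd hk1 (by omega)
      · rw [Bool.and_eq_false_iff] at hk1
        rcases hk1 with hk1 | hk1
        · exact (nb _ _ g1'.1 hk1).elim
        · exact (nb _ _ g1'.2.2.1 hk1).elim
      · rw [Bool.and_eq_false_iff] at hk1
        rcases hk1 with hk1 | hk1
        · exact (nb _ _ g1'.2.1 hk1).elim
        · exact (nb _ _ g1'.2.2.2 hk1).elim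
      · exfalso
        apply g7
        rw [nearB_iff, nearB_iff] at hk1
        exact hk1
      · exact hk1
    · rcases g1 with rfl | rfl
      · exact bok10_resource hx1 hy1 hw (hrook _ (hmem5 _ (cls_le v' y))).2
      · exact bok10_resource hx1 hy1 hw (hrook _ (hmem5 _ (cls_le u' x))).1

theorem start_S10 : S10 start := by
  refine ⟨onBoard10.mpr (by decide), onBoard10.mpr (by decide), ?_, by decide +kernel⟩
  unfold Near start
  simp

theorem not_wins_10_10 : ¬ Wins 10 10 start := fun h =>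
  not_wins_of_safe S10_closed h start_S10

end X294.KR
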