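import Pool.Agent.X294.KR.NTab

/-! White cannot force checkmate on the board with 8 files and infinitely many ranks. -/

namespace X294.KR

def nearB (a x : ℕ) : Bool := Nat.ble a (x + 1) && Nat.ble x (a + 1)

theorem nearB_iff {a x : ℕ} : nearB a x = true ↔ Near a x := by
  unfold nearB Near
  simp

def dirs : List (ℕ × ℕ) := [(2, 2), (1, 2), (2, 1), (0, 2), (2, 0), (0, 1), (1, 0), (0, 0)]

theorem dirs_spec {d : ℕ × ℕ} (h : d ∈ dirs) : d.1 ≤ 2 ∧ d.2 ≤ 2 ∧ ¬ (d.1 = 1 ∧ d.2 = 1) := by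
  revert d
  decide

/-- Relative positions: `s = (rank of black king) + 2 - (rank of white king)`. -/
def safe8 (x a s cu cv : ℕ) : Bool :=
  Nat.beq x 8 || (Nat.beq x 7 && Nat.ble 2 s) || (Nat.ble x 6 && Nat.ble 11 (x + s)) ||
    (Nat.ble 3 s && Nat.testBit (tab8 x a s) (5 * cu + cv))

def bok8 (x a s cu cv : ℕ) : Bool :=
  dirs.any fun d =>
    let x' := x + d.1 - 1
    let s' := s + d.2 - 1
    Nat.ble 1 x' && Nat.ble x' 8 && !(nearB a x' && nearB s' 2) &&
      ((Nat.beq cu (d.1 + 1) && Nat.beq cv (d.2 + 1)) ||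
        (!Nat.beq cu (d.1 + 1) && !Nat.beq cv (d.2 + 1) &&
          (updL d.1 cu).all fun c1 => (updL d.2 cv).all fun c2 => safe8 x' a s' c1 c2))

def stateOK8 (x a s cu cv : ℕ) : Bool :=
  ([0, 1, 2].all fun i => [0, 1, 2].all fun j =>
    let a' := a + i - 1
    let s' := s + j - 1
    (Nat.beq i 1 && Nat.beq j 1) || !(Nat.ble 1 a' && Nat.ble a' 8) ||
      (nearB a' x && nearB s' 2) || bok8 x a' s' cu cv) &&
  ([0, 1, 2, 3, 4].all fun c => bok8 x a s c cv && bok8 x a s cu c)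

def check8 : Bool :=
  [1, 2, 3, 4, 5, 6, 7].all fun x => [1, 2, 3, 4, 5, 6, 7, 8].all fun a =>
    [3, 4, 5, 6, 7].all fun s => [0, 1, 2, 3, 4].all fun cu => [0, 1, 2, 3, 4].all fun cv =>
      !Nat.testBit (tab8 x a s) (5 * cu + cv) || stateOK8 x a s cu cv

theorem check8_true : check8 = true := by decide +kernel

theorem tab8_big : ∀ s, 8 ≤ s → ∀ x a, tab8 x a s = 0 := by
  intro s hs x a
  have h1 : ∀ l ∈ data8, ∀ l' ∈ l, l'.length ≤ 8 := by decide +kernel
  unfold tab8
  have h2 : ∀ (L : List (List ℕ)), (∀ l' ∈ L, l'.length ≤ 8) → (L.getD a []).getD s 0 = 0 := by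
    intro L hL
    rcases lt_or_ge a L.length with h | h
    · have h3 : L.getD a [] = L[a] := by simp [List.getD, h]
      rw [h3]
      have h4 := hL L[a] (List.getElem_mem h)
      exact List.getD_eq_default _ _ (by omega)
    · rw [List.getD_eq_default _ _ h]
      simp
  rcases lt_or_ge x data8.length with h | h
  · have h3 : data8.getD x [] = data8[x] := by simp [List.getD, h]
    rw [h3]
    exact h2 _ (h1 _ (List.getElem_mem h))
  · rw [List.getD_eq_default _ _ h]
    simp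

end X294.KR
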