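import Pool.Agent.X294.KR.NonWin8

namespace X294.KR

/-- Safe positions (White to move) of the board with 8 files and infinitely many ranks. -/
def S8 (p : Pos) : Prop :=
  OnBoard 8 ⊤ p.bk ∧ OnBoard 8 ⊤ p.wk ∧ ¬ (Near p.wk.1 p.bk.1 ∧ Near p.wk.2 p.bk.2) ∧
    (p.bk.1 = 8 ∨ (p.wk.2 ≤ p.bk.2 + 2 ∧
      safe8 p.bk.1 p.wk.1 (p.bk.2 + 2 - p.wk.2) (cls p.wr.1 p.bk.1) (cls p.wr.2 p.bk.2) = true))

theorem bok8_resource {a b u v x y : ℕ} (hx : 1 ≤ x) (hx7 : x ≤ 7) (hy : 2 ≤ y)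
    (hwk : OnBoard 8 ⊤ (a, b)) (hby : b ≤ y)
    (h : bok8 x a (y + 2 - b) (cls u x) (cls v y) = true) :
    Resource 8 ⊤ S8 ⟨(a, b), (u, v), (x, y)⟩ := by
  unfold bok8 at h
  rw [List.any_eq_true] at h
  obtain ⟨⟨i, j⟩, hd, h⟩ := h
  obtain ⟨d1, d2, d3⟩ := dirs_spec hd
  simp only at d1 d2 d3
  simp only [Bool.and_eq_true, Bool.or_eq_true, Bool.not_eq_true', Bool.and_eq_false_iff] at h
  obtain ⟨⟨⟨h1, h2⟩, h3⟩, h4⟩ := h
  have h1 : 1 ≤ x + i - 1 := by simpa using h1
  have h2 : x + i - 1 ≤ 8 := by simpa using h2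
  have e2 : y + 2 - b + j - 1 = (y + j - 1) + 2 - b := by omega
  rw [e2] at h3 h4
  have hk : ¬ (Near a (x + i - 1) ∧ Near b (y + j - 1)) := by
    rintro ⟨k1, k2⟩
    rcases h3 with h3 | h3
    · rw [nearB_iff.mpr k1] at h3
      simp at h3
    · have : nearB (y + j - 1 + 2 - b) 2 = true := by
        rw [nearB_iff]
        unfold Near at k2 ⊢
        omega
      rw [this] at h3
      simp at h3
  have hb : OnBoard 8 ⊤ (x + i - 1, y + j - 1) := by
    refine ⟨h1, by show 1 ≤ y + j - 1; omega, ?_, le_top⟩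
    show ((x + i - 1 : ℕ) : ℕ∞) ≤ 8
    exact_mod_cast h2
  have cu : cls u x = i + 1 ↔ u = x + i - 1 := cls_eq d1 (by omega)
  have cv : cls v y = j + 1 ↔ v = y + j - 1 := cls_eq d2 (by omega)
  refine resource_of (x + i - 1) (y + j - 1) hb (by omega) (by omega) (by omega) (by omega)
    (by omega) hk ?_
  rcases h4 with ⟨g1, g2⟩ | ⟨⟨g1, g2⟩, g3⟩
  · left
    have g1 := Nat.eq_of_beq_eq_true g1
    have g2 := Nat.eq_of_beq_eq_true g2
    exact ⟨cu.mp g1, cv.mp g2⟩
  · right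
    have g1 := Nat.ne_of_beq_eq_false g1
    have g2 := Nat.ne_of_beq_eq_false g2
    refine ⟨fun e => g1 (cu.mpr e), fun e => g2 (cv.mpr e), hb, hwk, hk, ?_⟩
    right
    refine ⟨by show b ≤ y + j - 1 + 2; omega, ?_⟩
    rw [List.all_eq_true] at g3
    have g4 := g3 _ (cls_upd (v := u) (y' := x + i - 1) d1 (by omega))
    rw [List.all_eq_true] at g4
    exact g4 _ (cls_upd (v := v) (y' := y + j - 1) d2 (by omega))

theorem safe8_of_T {a b x y cu cv : ℕ} (hx : x ≤ 8) (h : b ≤ y + 2)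
    (hT : x = 8 ∨ (x + 1 = 8 ∧ b ≤ y) ∨ (x + 2 ≤ 8 ∧ b + 8 + 1 ≤ x + y)) :
    safe8 x a (y + 2 - b) cu cv = true := by
  unfold safe8
  simp only [Bool.or_eq_true, Bool.and_eq_true]
  rcases hT with h1 | h1 | h1
  · left; left; left
    simp [h1]
  · left; left; right
    have : x = 7 := by omega
    subst this
    refine ⟨by simp, ?_⟩
    rw [Nat.ble_eq]; omega
  · left; right
    rw [Nat.ble_eq, Nat.ble_eq]
    omega

theorem T8_resource {a b u v x y : ℕ} (hx : 1 ≤ x) (hy : 1 ≤ y) (hwk : OnBoard 8 ⊤ (a, b))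
    (hk : ¬ (Near a x ∧ Near b y))
    (hT : (x + 1 = 8 ∧ b ≤ y + 1) ∨ (x + 2 ≤ 8 ∧ b + 8 ≤ x + y)) :
    Resource 8 ⊤ S8 ⟨(a, b), (u, v), (x, y)⟩ := by
  have ha : a ≤ 8 := by
    have := hwk.2.2.1
    simp only at this
    exact_mod_cast this
  refine T_resource (m := 8) hx hy (by simp) ha hk hT ?_
  intro x' y' hb hk' hT'
  have hx' : x' ≤ 8 := by
    have := hb.2.2.1
    simp only at this
    exact_mod_cast this
  refine ⟨hb, hwk, hk', ?_⟩
  rcases hT' with h1 | h1 | h1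
  · exact Or.inl h1
  · exact absurd h1 (by simp)
  · right
    have : b ≤ y' + 2 := by omega
    exact ⟨this, safe8_of_T hx' this (Or.inr h1)⟩

theorem S8_closed (p : Pos) (hp : S8 p) (q : Pos) (hq : WhiteMove 8 ⊤ p q) :
    Resource 8 ⊤ S8 q := by
  obtain ⟨⟨a, b⟩, ⟨u, v⟩, ⟨x, y⟩⟩ := p
  obtain ⟨hb, hw, hk, hs⟩ := hp
  simp only at hb hw hk hs
  have hx1 : 1 ≤ x := hb.1
  have hy1 : 1 ≤ y := hb.2.1
  have hx8 : x ≤ 8 := by
    have := hb.2.2.1
    simp only at this
    exact_mod_cast this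
  have ha1 : 1 ≤ a := hw.1
  have hb1 : 1 ≤ b := hw.2.1
  have ha8 : a ≤ 8 := by
    have := hw.2.2.1
    simp only at this
    exact_mod_cast this
  by_cases h8 : x = 8
  · left; left
    rw [hq.bk_eq]
    simp [h8]
  rcases hs with hs | ⟨hby, hs⟩
  · exact absurd hs h8
  have hT0 : ((x + 1 = 8 ∧ b ≤ y) ∨ (x + 2 ≤ 8 ∧ b + 8 + 1 ≤ x + y)) ∨
      (3 ≤ y + 2 - b ∧
        Nat.testBit (tab8 x a (y + 2 - b)) (5 * cls u x + cls v y) = true) := by
    unfold safe8 at hs
    simp only [Bool.or_eq_true, Bool.and_eq_true, Nat.ble_eq, Nat.beq_eq] at hs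
    rcases hs with ((hs | hs) | hs) | hs
    · exact absurd hs h8
    · left; left; omega
    · left; right; omega
    · right; exact hs
  rcases hT0 with hT | ⟨hs3, htab⟩
  · rcases whiteMove_cases hq with ⟨a', b', g1, g2, g3, g4, g5, g6, g7, rfl⟩ | ⟨u', v', g1, rfl⟩
    · refine T8_resource hx1 hy1 g1 g7 ?_
      omega
    · refine T8_resource hx1 hy1 hw hk ?_
      omega
  · have hs7 : y + 2 - b ≤ 7 := by
      by_contra hc
      rw [tab8_big _ (by omega)] at htab
      simp at htab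
    have hc := check8_true
    unfold check8 at hc
    simp only [List.all_eq_true] at hc
    have hcu := cls_le u x
    have hcv := cls_le v y
    have hmem5 : ∀ c, c ≤ 4 → c ∈ [0, 1, 2, 3, 4] := by
      intro c hc
      have : c = 0 ∨ c = 1 ∨ c = 2 ∨ c = 3 ∨ c = 4 := by omega
      simpa using this
    have h9 := hc x (by
        have : x = 1 ∨ x = 2 ∨ x = 3 ∨ x = 4 ∨ x = 5 ∨ x = 6 ∨ x = 7 := by omega
        simpa using this) a (by
        have : a = 1 ∨ a = 2 ∨ a = 3 ∨ a = 4 ∨ a = 5 ∨ a = 6 ∨ a = 7 ∨ a = 8 := by omega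
        simpa using this) (y + 2 - b) (by
        have : y + 2 - b = 3 ∨ y + 2 - b = 4 ∨ y + 2 - b = 5 ∨ y + 2 - b = 6 ∨
          y + 2 - b = 7 := by omega
        simpa only [List.mem_cons, List.not_mem_nil, or_false] using this)
        (cls u x) (hmem5 _ hcu) (cls v y) (hmem5 _ hcv)
    rw [htab] at h9
    simp only [Bool.not_true, Bool.false_or] at h9
    unfold stateOK8 at h9
    simp only [Bool.and_eq_true, List.all_eq_true] at h9
    obtain ⟨hking, hrook⟩ := h9
    rcases whiteMove_cases hq with ⟨a', b', g1, g2, g3, g4, g5, g6, g7, rfl⟩ | ⟨u', v', g1, rfl⟩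
    · have ha'1 : 1 ≤ a' := g1.1
      have ha'8 : a' ≤ 8 := by
        have := g1.2.2.1
        simp only at this
        exact_mod_cast this
      have hmem3 : ∀ c, c ≤ 2 → c ∈ [0, 1, 2] := by
        intro c hc
        have : c = 0 ∨ c = 1 ∨ c = 2 := by omega
        simpa using this
      have hk1 := hking (a' + 1 - a) (hmem3 _ (by omega)) (b + 1 - b') (hmem3 _ (by omega))
      have e1 : a + (a' + 1 - a) - 1 = a' := by omega
      have e2 : y + 2 - b + (b + 1 - b') - 1 = y + 2 - b' := by omega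
      rw [e1, e2] at hk1
      simp only [Bool.or_eq_true, Bool.and_eq_true, Bool.not_eq_true', Nat.beq_eq] at hk1
      refine bok8_resource hx1 (by omega) (by omega) g1 (by omega) ?_
      rcases hk1 with ((hk1 | hk1) | hk1) | hk1
      · exact absurd hk1 (by omega)
      · rw [Bool.and_eq_false_iff] at hk1
        rcases hk1 with hk1 | hk1
        · have : ¬ 1 ≤ a' := fun h => by rw [Nat.ble_eq.mpr h] at hk1; exact absurd hk1 (by simp)
          omega
        · have : ¬ a' ≤ 8 := fun h => by rw [Nat.ble_eq.mpr h] at hk1; exact absurd hk1 (by simp)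
          omega
      · exfalso
        apply g7
        rw [nearB_iff, nearB_iff] at hk1
        refine ⟨hk1.1, ?_⟩
        have := hk1.2
        unfold Near at this ⊢
        omega
      · exact hk1
    · rcases g1 with rfl | rfl
      · exact bok8_resource hx1 (by omega) (by omega) hw (by omega)
          (hrook _ (hmem5 _ (cls_le v' y))).2
      · exact bok8_resource hx1 (by omega) (by omega) hw (by omega)
          (hrook _ (hmem5 _ (cls_le u' x))).1

theorem start_S8 : S8 start := by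
  refine ⟨⟨by decide, by decide, ?_, le_top⟩, ⟨by decide, by decide, ?_, le_top⟩, ?_, Or.inr ⟨by decide, by decide +kernel⟩⟩
  · show ((3 : ℕ) : ℕ∞) ≤ 8
    exact_mod_cast (by norm_num : (3 : ℕ) ≤ 8)
  · show ((1 : ℕ) : ℕ∞) ≤ 8
    exact_mod_cast (by norm_num : (1 : ℕ) ≤ 8)
  · unfold Near start
    simp

theorem not_wins_8_top : ¬ Wins 8 ⊤ start := fun h =>
  not_wins_of_safe S8_closed h start_S8

end X294.KR
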