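import Pool.Agent.X294.KR.Core

/-! The elementary escape lemma (for all widths `m`), and classes of rook coordinates. -/

namespace X294.KR

/-- `a` and `x` differ by at most one. -/
def Near (a x : ℕ) : Prop := a ≤ x + 1 ∧ x ≤ a + 1

theorem resource_of {m n : ℕ∞} {S : Pos → Prop} {a b u v x y : ℕ} (x' y' : ℕ)
    (hb : OnBoard m n (x', y')) (h1 : x' ≤ x + 1) (h2 : x ≤ x' + 1) (h3 : y' ≤ y + 1)
    (h4 : y ≤ y' + 1) (hne : ¬ (x' = x ∧ y' = y)) (hk : ¬ (Near a x' ∧ Near b y'))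
    (hr : (u = x' ∧ v = y') ∨ (u ≠ x' ∧ v ≠ y' ∧ S ⟨(a, b), (u, v), (x', y')⟩)) :
    Resource m n S ⟨(a, b), (u, v), (x, y)⟩ := by
  unfold Near at hk
  refine Or.inr ⟨(x', y'), ⟨hb, ⟨?_, ?_, ?_, ?_, ?_⟩, ?_, ?_⟩, ?_⟩
  · intro e
    simp only [Prod.mk.injEq] at e
    omega
  · simpa using h2
  · simpa using h1
  · simpa using h4
  · simpa using h3
  · intro e
    simp only [Prod.mk.injEq] at e
    omega
  · rintro (h | ⟨h, -⟩)
    · have h5 := h.2
      simp only at h5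
      omega
    · rcases hr with ⟨hr1, hr2⟩ | ⟨hr1, hr2, -⟩
      · exact h.1 (by rw [hr1, hr2])
      · rcases h.2 with h6 | h6
        · exact hr1 h6
        · exact hr2 h6
  · rcases hr with ⟨hr1, hr2⟩ | ⟨hr1, hr2, hs⟩
    · left
      simp [hr1, hr2]
    · exact Or.inr hs

theorem Resource.swap {m n : ℕ∞} {S : Pos → Prop} {q : Pos} (h : Resource m n S q) :
    Resource n m (fun p => S p.swap) q.swap := by
  rcases h with h | ⟨t, h1, h2⟩
  · exact Or.inl h.symm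
  · refine Or.inr ⟨t.swap, h1.swap, ?_⟩
    rcases h2 with h2 | h2
    · left
      rw [h2]; simp [Pos.swap]
    · right
      simpa [Pos.swap] using h2

/-- Black to move, black king on `(x, y)`, white king on `(a, b)`, the rook anywhere: Black has a
good move if the white king is far enough behind. -/
theorem T_resource {m : ℕ} {n : ℕ∞} {S : Pos → Prop} {a b u v x y : ℕ}
    (hx : 1 ≤ x) (hy : 1 ≤ y) (hyn : (y : ℕ∞) < n) (ha : a ≤ m)
    (hk : ¬ (Near a x ∧ Near b y))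
    (hT : (x + 1 = m ∧ b ≤ y + 1) ∨ (x + 2 ≤ m ∧ b + m ≤ x + y))
    (hS : ∀ x' y', OnBoard m n (x', y') → ¬ (Near a x' ∧ Near b y') →
      (x' = m ∨ (y' : ℕ∞) = n ∨ (x' + 1 = m ∧ b ≤ y') ∨ (x' + 2 ≤ m ∧ b + m + 1 ≤ x' + y')) →
      S ⟨(a, b), (u, v), (x', y')⟩) :
    Resource m n S ⟨(a, b), (u, v), (x, y)⟩ := by
  unfold Near at hk hS
  have hy1 : ((y + 1 : ℕ) : ℕ∞) ≤ n := by
    have := Order.add_one_le_of_lt hyn
    exact_mod_cast this
  have hxm : x + 1 ≤ m := by omega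
  have b1 : OnBoard m n (x + 1, y + 1) :=
    ⟨by simp, by simp, by simpa using (by exact_mod_cast hxm : ((x + 1 : ℕ) : ℕ∞) ≤ (m : ℕ∞)),
      hy1⟩
  have b2 : OnBoard m n (x, y + 1) :=
    ⟨hx, by simp, by simpa using (by omega : x ≤ m), hy1⟩
  have b3 : OnBoard m n (x + 1, y) :=
    ⟨by simp, hy, by simpa using (by exact_mod_cast hxm : ((x + 1 : ℕ) : ℕ∞) ≤ (m : ℕ∞)),
      hyn.le⟩
  by_cases c1 : u = x + 1 ∧ v = y + 1
  · refine resource_of (x + 1) (y + 1) b1 (by omega) (by omega) (by omega) (by omega) (by omega)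
      ?_ (Or.inl c1)
    unfold Near; omega
  by_cases c2 : v = y + 1
  · have nk : ¬ ((a ≤ x + 1 + 1 ∧ x + 1 ≤ a + 1) ∧ (b ≤ y + 1 ∧ y ≤ b + 1)) := by omega
    refine resource_of (x + 1) y b3 (by omega) (by omega) (by omega) (by omega) (by omega)
      (by unfold Near; exact nk) (Or.inr ⟨by omega, by omega, hS _ _ b3 nk ?_⟩)
    omega
  by_cases c3 : u = x + 1
  · have nk : ¬ ((a ≤ x + 1 ∧ x ≤ a + 1) ∧ (b ≤ y + 1 + 1 ∧ y + 1 ≤ b + 1)) := by omega
    refine resource_of x (y + 1) b2 (by omega) (by omega) (by omega) (by omega) (by omega)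
      (by unfold Near; exact nk) (Or.inr ⟨by omega, by omega, hS _ _ b2 nk ?_⟩)
    omega
  · have nk : ¬ ((a ≤ x + 1 + 1 ∧ x + 1 ≤ a + 1) ∧ (b ≤ y + 1 + 1 ∧ y + 1 ≤ b + 1)) := by omega
    refine resource_of (x + 1) (y + 1) b1 (by omega) (by omega) (by omega) (by omega) (by omega)
      (by unfold Near; exact nk) (Or.inr ⟨by omega, by omega, hS _ _ b1 nk ?_⟩)
    omega

/-- The class of a rook coordinate `v` relative to the king coordinate `y`. -/
def cls (v y : ℕ) : ℕ :=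
  if v + 2 ≤ y then 0 else if v + 1 = y then 1 else if v = y then 2 else
    if v = y + 1 then 3 else 4

theorem cls_le (v y : ℕ) : cls v y ≤ 4 := by
  unfold cls; split_ifs <;> omega

/-- Possible classes after a king step (`d = 0, 1, 2` for step `-1, 0, 1`). -/
def updL : ℕ → ℕ → List ℕ
  | 0, 0 => [0, 1]
  | 0, 1 => [2]
  | 0, 2 => [3]
  | 0, _ => [4]
  | 1, c => [c]
  | _, 0 => [0]
  | _, 1 => [0]
  | _, 2 => [1]
  | _, 3 => [2]
  | _, _ => [3, 4]

theorem cls_upd {v y y' d : ℕ} (hd : d ≤ 2) (h : y' + 1 = y + d) :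
    cls v y' ∈ updL d (cls v y) := by
  have h0 : d = 0 ∨ d = 1 ∨ d = 2 := by omega
  rcases h0 with rfl | rfl | rfl
  · unfold cls
    split_ifs <;> first | omega | simp [updL]
  · have : y' = y := by omega
    subst this
    simp [updL]
  · unfold cls
    split_ifs <;> first | omega | simp [updL]

theorem cls_eq {v y y' d : ℕ} (hd : d ≤ 2) (h : y' + 1 = y + d) :
    cls v y = d + 1 ↔ v = y' := by
  unfold cls
  split_ifs <;> constructor <;> intro hh <;> first | omega | exact hh.elim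

/-- Analysis of the moves of White: coordinates. -/
theorem whiteMove_cases {m n : ℕ∞} {a b u v x y : ℕ} {q : Pos}
    (h : WhiteMove m n ⟨(a, b), (u, v), (x, y)⟩ q) :
    (∃ a' b', OnBoard m n (a', b') ∧ a' ≤ a + 1 ∧ a ≤ a' + 1 ∧ b' ≤ b + 1 ∧ b ≤ b' + 1 ∧
      ¬ (a' = a ∧ b' = b) ∧ ¬ (Near a' x ∧ Near b' y) ∧ q = ⟨(a', b'), (u, v), (x, y)⟩) ∨
    (∃ u' v', (u' = u ∨ v' = v) ∧ q = ⟨(a, b), (u', v'), (x, y)⟩) := by
  unfold Near
  rcases h with ⟨⟨a', b'⟩, h1, h2, h3, h4, h5⟩ | ⟨⟨u', v'⟩, h1, h2, h3, h4, h5, h6⟩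
  · left
    obtain ⟨g1, g2, g3, g4, g5⟩ := h2
    simp only at g2 g3 g4 g5
    refine ⟨a', b', h1, g3, g2, g5, g4, ?_, ?_, rfl⟩
    · rintro ⟨rfl, rfl⟩
      exact g1 rfl
    · rintro ⟨⟨k1, k2⟩, k3, k4⟩
      apply h5
      refine ⟨h4, k1, k2, k3, k4⟩
  · right
    refine ⟨u', v', ?_, rfl⟩
    rcases h2.2 with h7 | h7
    · exact Or.inl h7.symm
    · exact Or.inr h7.symm

end X294.KR
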