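import Pool.Agent.X294.KR.WTab

namespace X294.KR

theorem chkW_6 : L11.all (fun b => checkWab 6 b) = true := by decide +kernel

theorem chkW_7 : L11.all (fun b => checkWab 7 b) = true := by decide +kernel

theorem chkW_8 : L11.all (fun b => checkWab 8 b) = true := by decide +kernel

theorem chkW_9 : L11.all (fun b => checkWab 9 b) = true := by decide +kernel

end X294.KR
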