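/-! Data of the winning strategy of White on the `9 × 11` board: white king on file 9. -/

namespace X294.KR

def dataW_9_9 : List (List Nat) :=
  [[], [], [], [], [], [], [], [0,
0,
0,
0,
0,
0,
0,
0,
0,
0,
0,
0x229a225b225a000000000000000000000000000000000000000000000000000000000000000000000000000000000000000000000000000000000000000000000000000000000000000000000000000000000000000000000000000000000000000000000000000000000000000000000000000000000000], [], [0,
0,
0,
0,
0,
0,
0,
0,
0,
0,
0,
0x5edc00000000000000000000000000000000225a225b0000000000000000000000000000000000000000000000000000000000000000000000000000000000000000000000000000000000000000000000000000000000000000000000000000000000000000000000000000000000000000000000000000000000000000000000000000000000000000]]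

def dataW_9 : List (List (List Nat)) :=
  [[], [], [], [], [], [], [], [], [], dataW_9_9, [], []]

end X294.KR
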