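import Pool.Agent.X294.KR.WData1
import Pool.Agent.X294.KR.WData2
import Pool.Agent.X294.KR.WData3
import Pool.Agent.X294.KR.WData4
import Pool.Agent.X294.KR.WData5
import Pool.Agent.X294.KR.WData6
import Pool.Agent.X294.KR.WData7
import Pool.Agent.X294.KR.WData8
import Pool.Agent.X294.KR.WData9
import Pool.Agent.X294.KR.NonWin8

/-! The winning strategy of White on the `9 × 11` board, as a table: check functions. -/

namespace X294.KR

def dataW : List (List (List (List ℕ))) :=
  [[], dataW_1, dataW_2, dataW_3, dataW_4, dataW_5, dataW_6, dataW_7, dataW_8, dataW_9]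

def rowW (a b u v : ℕ) : ℕ := (((dataW.getD a []).getD b []).getD u []).getD v 0

def digW (row x y : ℕ) : ℕ := (row >>> (16 * (10 * x + y - 11))) % 65536

def btw (s m t : ℕ) : Bool := (Nat.blt s m && Nat.blt m t) || (Nat.blt t m && Nat.blt m s)

/-- The rook on `(u, v)` attacks `(x, y)`, with the white king on `(a, b)`. -/
def lineB (a b u v x y : ℕ) : Bool :=
  (Nat.beq u x && !Nat.beq v y && !(Nat.beq a x && btw v b y)) ||
    (Nat.beq v y && !Nat.beq u x && !(Nat.beq b y && btw u a x))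

def illB (a b u v x y : ℕ) : Bool := (nearB a x && nearB b y) || lineB a b u v x y

def btmB (a b u v x y rk : ℕ) : Bool :=
  let row := rowW a b u v
  Nat.ble x 8 && Nat.ble y 10 &&
  (dirs.all fun d =>
    let x' := x + d.1 - 1
    let y' := y + d.2 - 1
    Nat.beq x' 0 || Nat.beq y' 0 || illB a b u v x' y' ||
      (Nat.ble x' 8 && Nat.ble y' 10 && !(Nat.beq u x' && Nat.beq v y') &&
        (Nat.ble 1 (digW row x' y' % 64) && Nat.blt (digW row x' y' % 64) rk))) &&
  (lineB a b u v x y || dirs.any fun d =>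
    let x' := x + d.1 - 1
    let y' := y + d.2 - 1
    Nat.ble 1 x' && Nat.ble 1 y' && !illB a b u v x' y')

def betwB (u v a b x y : ℕ) : Bool :=
  (Nat.beq u a && Nat.beq a x && btw v b y) || (Nat.beq v b && Nat.beq b y && btw u a x)

def entryB (a b u v x y d : ℕ) : Bool :=
  let rk := d % 64
  let mv := d / 64
  let tx := (mv / 16) % 16
  let ty := mv % 16
  Nat.ble 1 tx && Nat.ble tx 9 && Nat.ble 1 ty && Nat.ble ty 11 &&
  bif Nat.blt mv 256 then
    nearB a tx && nearB b ty && !(Nat.beq tx a && Nat.beq ty b) &&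
      !(Nat.beq tx u && Nat.beq ty v) && !(nearB tx x && nearB ty y) &&
      btmB tx ty u v x y rk
  else
    !(Nat.beq tx u && Nat.beq ty v) && (Nat.beq tx u || Nat.beq ty v) &&
      !(Nat.beq tx a && Nat.beq ty b) && !(Nat.beq tx x && Nat.beq ty y) &&
      !betwB u v a b tx ty && !betwB u v x y tx ty && btmB a b tx ty x y rk

def L8 : List ℕ := [1, 2, 3, 4, 5, 6, 7, 8]
def L9 : List ℕ := [1, 2, 3, 4, 5, 6, 7, 8, 9]
def L10 : List ℕ := [1, 2, 3, 4, 5, 6, 7, 8, 9, 10]
def L11 : List ℕ := [1, 2, 3, 4, 5, 6, 7, 8, 9, 10, 11]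

def checkWab (a b : ℕ) : Bool :=
  L9.all fun u => L11.all fun v => Nat.beq (rowW a b u v) 0 ||
    L8.all fun x => L10.all fun y => Nat.beq (digW (rowW a b u v) x y) 0 ||
      entryB a b u v x y (digW (rowW a b u v) x y)

end X294.KR
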