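import Pool.Agent.X294.KR.WChkA
import Pool.Agent.X294.KR.WChkB
import Pool.Agent.X294.KR.WChkC
import Pool.Agent.X294.KR.WChkD
import Pool.Agent.X294.KR.NonWin8b
import Pool.Agent.X294.KR.NonWin10

/-! White can force checkmate on the `9 × 11` board: soundness of the table. -/

namespace X294.KR

theorem onBoard911 {s : Sq} : OnBoard 9 11 s ↔ (1 ≤ s.1 ∧ 1 ≤ s.2 ∧ s.1 ≤ 9 ∧ s.2 ≤ 11) := by
  unfold OnBoard
  have h1 : ((s.1 : ℕ∞) ≤ 9) ↔ s.1 ≤ 9 := by
    rw [show (9 : ℕ∞) = ((9 : ℕ) : ℕ∞) from rfl]; exact Nat.cast_le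
  have h2 : ((s.2 : ℕ∞) ≤ 11) ↔ s.2 ≤ 11 := by
    rw [show (11 : ℕ∞) = ((11 : ℕ) : ℕ∞) from rfl]; exact Nat.cast_le
  rw [h1, h2]

theorem btw_iff {s m t : ℕ} : btw s m t = true ↔ ((s < m ∧ m < t) ∨ (t < m ∧ m < s)) := by
  unfold btw
  simp only [Bool.or_eq_true, Bool.and_eq_true, Nat.blt_eq]

theorem lineB_iff {a b u v x y : ℕ} : lineB a b u v x y = true ↔
    (SameLine (u, v) (x, y) ∧ ¬ Between (u, v) (a, b) (x, y)) := by
  unfold lineB SameLine Between
  simp only [Bool.or_eq_true, Bool.and_eq_true, Bool.not_eq_true', Nat.beq_eq, ne_eq,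
    Prod.mk.injEq, Bool.and_eq_false_iff]
  have n1 : ∀ c d : ℕ, Nat.beq c d = false ↔ ¬ c = d := fun c d => by
    rw [← Bool.not_eq_true, Nat.beq_eq]
  have n2 : ∀ c d e : ℕ, btw c d e = false ↔ ¬ ((c < d ∧ d < e) ∨ (e < d ∧ d < c)) :=
    fun c d e => by rw [← Bool.not_eq_true, btw_iff]
  simp only [n1, n2]
  omega

theorem betwB_iff {u v a b x y : ℕ} : betwB u v a b x y = true ↔
    Between (u, v) (a, b) (x, y) := by
  unfold betwB Between
  simp only [Bool.or_eq_true, Bool.and_eq_true, Nat.beq_eq, btw_iff]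
  omega

theorem near_iff_step {a b x y : ℕ} :
    (nearB a x && nearB b y) = true ↔ (Step (a, b) (x, y) ∨ (x, y) = (a, b)) := by
  rw [Bool.and_eq_true, nearB_iff, nearB_iff]
  unfold Near Step
  simp only [ne_eq, Prod.mk.injEq]
  omega

theorem illB_iff {a b u v x y : ℕ} : illB a b u v x y = true ↔
    (Attacks (a, b) (u, v) (x, y) ∨ (x, y) = (a, b)) := by
  unfold illB Attacks
  rw [Bool.or_eq_true, near_iff_step, lineB_iff]
  tauto

theorem mem_dirs {i j : ℕ} (hi : i ≤ 2) (hj : j ≤ 2) (h : ¬ (i = 1 ∧ j = 1)) :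
    (i, j) ∈ dirs := by
  have h1 : i = 0 ∨ i = 1 ∨ i = 2 := by omega
  have h2 : j = 0 ∨ j = 1 ∨ j = 2 := by omega
  rcases h1 with rfl | rfl | rfl <;> rcases h2 with rfl | rfl | rfl <;>
    first | (exact absurd ⟨rfl, rfl⟩ h) | decide

/-- The check of a position with Black to move implies what `Wins` asks for. -/
theorem btmB_sound {a b u v x y rk : ℕ} (hx : 1 ≤ x) (hy : 1 ≤ y)
    (h : btmB a b u v x y rk = true)
    (ih : ∀ x' y', 1 ≤ x' → 1 ≤ y' → x' ≤ 8 → y' ≤ 10 → 1 ≤ digW (rowW a b u v) x' y' % 64 →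
      digW (rowW a b u v) x' y' % 64 < rk → Wins 9 11 ⟨(a, b), (u, v), (x', y')⟩) :
    ¬ CanExit 9 11 ⟨(a, b), (u, v), (x, y)⟩ ∧
    (Attacks (a, b) (u, v) (x, y) ∨ ∃ t, BlackMove 9 11 ⟨(a, b), (u, v), (x, y)⟩ t) ∧
    (∀ t, BlackMove 9 11 ⟨(a, b), (u, v), (x, y)⟩ t → t ≠ (u, v)) ∧
    (∀ t, BlackMove 9 11 ⟨(a, b), (u, v), (x, y)⟩ t → Wins 9 11 ⟨(a, b), (u, v), t⟩) := by
  unfold btmB at h
  simp only [Bool.and_eq_true, Nat.ble_eq] at h
  obtain ⟨⟨⟨hx8, hy10⟩, hall⟩, hst⟩ := h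
  rw [List.all_eq_true] at hall
  -- facts for each move of Black
  have key : ∀ x' y', BlackMove 9 11 ⟨(a, b), (u, v), (x, y)⟩ (x', y') →
      (1 ≤ x' ∧ 1 ≤ y' ∧ x' ≤ 8 ∧ y' ≤ 10 ∧ ¬ (u = x' ∧ v = y') ∧
      1 ≤ digW (rowW a b u v) x' y' % 64 ∧ digW (rowW a b u v) x' y' % 64 < rk) := by
    rintro x' y' ⟨hb, hs, hne, hat⟩
    have hb' := onBoard911.mp hb
    obtain ⟨s1, s2, s3, s4, s5⟩ := hs
    simp only at hb' s2 s3 s4 s5 hne hat
    have hne' : ¬ (x' = x ∧ y' = y) := by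
      rintro ⟨rfl, rfl⟩
      exact s1 rfl
    have hm := hall (x' + 1 - x, y' + 1 - y) (mem_dirs (by omega) (by omega) (by omega))
    have e1 : x + (x' + 1 - x) - 1 = x' := by omega
    have e2 : y + (y' + 1 - y) - 1 = y' := by omega
    simp only [e1, e2] at hm
    simp only [Bool.or_eq_true, Bool.and_eq_true, Nat.ble_eq, Nat.beq_eq, Nat.blt_eq] at hm
    rcases hm with ((hm | hm) | hm) | hm
    · omega
    · omega
    · exfalso
      rcases illB_iff.mp hm with h7 | h7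
      · exact hat h7
      · exact hne h7
    · obtain ⟨⟨⟨h1, h2⟩, h3⟩, h4, h5⟩ := hm
      refine ⟨hb'.1, hb'.2.1, h1, h2, ?_, h4, h5⟩
      rintro ⟨rfl, rfl⟩
      simp at h3
  refine ⟨?_, ?_, ?_, ?_⟩
  · rintro (e | e)
    · have : x = 9 := by exact_mod_cast e
      omega
    · have : y = 11 := by exact_mod_cast e
      omega
  · rw [Bool.or_eq_true] at hst
    rcases hst with hst | hst
    · exact Or.inl (Or.inr (lineB_iff.mp hst))
    · right
      rw [List.any_eq_true] at hst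
      obtain ⟨⟨i, j⟩, hd, hst⟩ := hst
      obtain ⟨d1, d2, d3⟩ := dirs_spec hd
      simp only at d1 d2 d3
      simp only [Bool.and_eq_true, Nat.ble_eq, Bool.not_eq_true'] at hst
      obtain ⟨⟨g1, g2⟩, g3⟩ := hst
      have g3' : ¬ (Attacks (a, b) (u, v) (x + i - 1, y + j - 1) ∨
          (x + i - 1, y + j - 1) = (a, b)) := by
        rw [← illB_iff, g3]
        simp
      refine ⟨(x + i - 1, y + j - 1), onBoard911.mpr ⟨g1, g2, ?_, ?_⟩, ⟨?_, ?_, ?_, ?_, ?_⟩,
        fun e => g3' (Or.inr e), fun e => g3' (Or.inl e)⟩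
      · show x + i - 1 ≤ 9
        omega
      · show y + j - 1 ≤ 11
        omega
      · intro e
        simp only [Prod.mk.injEq] at e
        omega
      · show x ≤ x + i - 1 + 1
        omega
      · show x + i - 1 ≤ x + 1
        omega
      · show y ≤ y + j - 1 + 1
        omega
      · show y + j - 1 ≤ y + 1
        omega
  · rintro ⟨x', y'⟩ ht e
    have hk := key x' y' ht
    simp only [Prod.mk.injEq] at e
    exact hk.2.2.2.2.1 ⟨e.1.symm, e.2.symm⟩
  · rintro ⟨x', y'⟩ ht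
    have hk := key x' y' ht
    exact ih x' y' hk.1 hk.2.1 hk.2.2.1 hk.2.2.2.1 hk.2.2.2.2.2.1 hk.2.2.2.2.2.2

theorem mem_L8 {c : ℕ} (h1 : 1 ≤ c) (h2 : c ≤ 8) : c ∈ L8 := by
  unfold L8
  have : c = 1 ∨ c = 2 ∨ c = 3 ∨ c = 4 ∨ c = 5 ∨ c = 6 ∨ c = 7 ∨ c = 8 := by omega
  simpa only [List.mem_cons, List.not_mem_nil, or_false] using this

theorem mem_L9 {c : ℕ} (h1 : 1 ≤ c) (h2 : c ≤ 9) : c ∈ L9 := by
  unfold L9
  have : c = 1 ∨ c = 2 ∨ c = 3 ∨ c = 4 ∨ c = 5 ∨ c = 6 ∨ c = 7 ∨ c = 8 ∨ c = 9 := by omega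
  simpa only [List.mem_cons, List.not_mem_nil, or_false] using this

theorem mem_L10 {c : ℕ} (h1 : 1 ≤ c) (h2 : c ≤ 10) : c ∈ L10 := by
  unfold L10
  have : c = 1 ∨ c = 2 ∨ c = 3 ∨ c = 4 ∨ c = 5 ∨ c = 6 ∨ c = 7 ∨ c = 8 ∨ c = 9 ∨ c = 10 := by
    omega
  simpa only [List.mem_cons, List.not_mem_nil, or_false] using this

theorem mem_L11 {c : ℕ} (h1 : 1 ≤ c) (h2 : c ≤ 11) : c ∈ L11 := by
  unfold L11
  have : c = 1 ∨ c = 2 ∨ c = 3 ∨ c = 4 ∨ c = 5 ∨ c = 6 ∨ c = 7 ∨ c = 8 ∨ c = 9 ∨ c = 10 ∨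
    c = 11 := by omega
  simpa only [List.mem_cons, List.not_mem_nil, or_false] using this

theorem chkW_all {a : ℕ} (h1 : 1 ≤ a) (h2 : a ≤ 9) :
    L11.all (fun b => checkWab a b) = true := by
  have : a = 1 ∨ a = 2 ∨ a = 3 ∨ a = 4 ∨ a = 5 ∨ a = 6 ∨ a = 7 ∨ a = 8 ∨ a = 9 := by omega
  rcases this with rfl | rfl | rfl | rfl | rfl | rfl | rfl | rfl | rfl
  · exact chkW_1
  · exact chkW_2
  · exact chkW_3
  · exact chkW_4
  · exact chkW_5
  · exact chkW_6
  · exact chkW_7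
  · exact chkW_8
  · exact chkW_9

theorem win_table : ∀ rk : ℕ, ∀ a b u v x y : ℕ, 1 ≤ a → a ≤ 9 → 1 ≤ b → b ≤ 11 → 1 ≤ u →
    u ≤ 9 → 1 ≤ v → v ≤ 11 → 1 ≤ x → x ≤ 8 → 1 ≤ y → y ≤ 10 →
    1 ≤ digW (rowW a b u v) x y % 64 → digW (rowW a b u v) x y % 64 = rk →
    Wins 9 11 ⟨(a, b), (u, v), (x, y)⟩ := by
  intro rk
  induction rk using Nat.strong_induction_on with
  | _ rk ih =>
    intro a b u v x y ha1 ha9 hb1 hb11 hu1 hu9 hv1 hv11 hx1 hx8 hy1 hy10 hpos hrk
    have hc := chkW_all ha1 ha9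
    rw [List.all_eq_true] at hc
    have hc := hc b (mem_L11 hb1 hb11)
    unfold checkWab at hc
    simp only [List.all_eq_true] at hc
    have hc := hc u (mem_L9 hu1 hu9) v (mem_L11 hv1 hv11)
    rw [Bool.or_eq_true] at hc
    rcases hc with hc | hc
    · rw [Nat.eq_of_beq_eq_true hc] at hpos
      unfold digW at hpos
      simp at hpos
    simp only [List.all_eq_true] at hc
    have hc := hc x (mem_L8 hx1 hx8) y (mem_L10 hy1 hy10)
    rw [Bool.or_eq_true] at hc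
    rcases hc with hc | hc
    · rw [Nat.eq_of_beq_eq_true hc] at hpos
      simp at hpos
    unfold entryB at hc
    simp only [Bool.and_eq_true, Nat.ble_eq] at hc
    generalize hd : digW (rowW a b u v) x y = d at hc hpos hrk
    generalize htx : d / 64 / 16 % 16 = tx at hc
    generalize hty : d / 64 % 16 = ty at hc
    obtain ⟨⟨⟨⟨htx1, htx9⟩, hty1⟩, hty11⟩, hc⟩ := hc
    have hbd : OnBoard 9 11 (tx, ty) := onBoard911.mpr ⟨htx1, hty1, htx9, hty11⟩
    have nb : ∀ p : Bool, ∀ P : Prop, (p = true ↔ P) → p = false → ¬ P := by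
      intro p P h1 h2 h3
      rw [h1.mpr h3] at h2
      exact absurd h2 (by simp)
    cases hbl : Nat.blt (d / 64) 256 with
    | true =>
      rw [hbl, cond_true] at hc
      simp only [Bool.and_eq_true, Bool.not_eq_true'] at hc
      obtain ⟨⟨⟨⟨⟨c1, c2⟩, c3⟩, c4⟩, c5⟩, c6⟩ := hc
      have n3 := nb _ (tx = a ∧ ty = b) (by simp [Bool.and_eq_true, Nat.beq_eq]) c3
      have n4 := nb _ (tx = u ∧ ty = v) (by simp [Bool.and_eq_true, Nat.beq_eq]) c4
      have n5 := nb _ _ (near_iff_step (a := tx) (b := ty) (x := x) (y := y)) c5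
      rw [nearB_iff] at c1 c2
      have hS := btmB_sound hx1 hy1 c6 (fun x' y' h1 h2 h3 h4 h5 h6 =>
        ih (digW (rowW tx ty u v) x' y' % 64) (by rw [← hrk]; exact h6) tx ty u v x' y' htx1 htx9
          hty1 hty11 hu1 hu9 hv1 hv11 h1 h3 h2 h4 h5 rfl)
      obtain ⟨s1, s2, s3, s4⟩ := hS
      refine Wins.mk _ ⟨(tx, ty), (u, v), (x, y)⟩ (WhiteMove.king (tx, ty) hbd ?_ ?_ ?_ ?_)
        s1 s2 s3 s4
      · unfold Near at c1 c2
        refine ⟨?_, c1.1, c1.2, c2.1, c2.2⟩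
        intro e
        simp only [Prod.mk.injEq] at e
        exact n3 ⟨e.1.symm, e.2.symm⟩
      · intro e
        simp only [Prod.mk.injEq] at e
        exact n4 e
      · intro e
        simp only [Prod.mk.injEq] at e
        exact n5 (Or.inr (by rw [e.1, e.2]))
      · intro e
        exact n5 (Or.inl e)
    | false =>
      rw [hbl, cond_false] at hc
      simp only [Bool.and_eq_true, Bool.not_eq_true', Bool.or_eq_true] at hc
      obtain ⟨⟨⟨⟨⟨⟨c1, c2⟩, c3⟩, c4⟩, c5⟩, c6⟩, c7⟩ := hc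
      have n1 := nb _ (tx = u ∧ ty = v) (by simp [Bool.and_eq_true, Nat.beq_eq]) c1
      have n3 := nb _ (tx = a ∧ ty = b) (by simp [Bool.and_eq_true, Nat.beq_eq]) c3
      have n4 := nb _ (tx = x ∧ ty = y) (by simp [Bool.and_eq_true, Nat.beq_eq]) c4
      have n5 := nb _ _ betwB_iff c5
      have n6 := nb _ _ betwB_iff c6
      have hS := btmB_sound hx1 hy1 c7 (fun x' y' h1 h2 h3 h4 h5 h6 =>
        ih (digW (rowW a b tx ty) x' y' % 64) (by rw [← hrk]; exact h6) a b tx ty x' y' ha1 ha9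
          hb1 hb11 htx1 htx9 hty1 hty11 h1 h3 h2 h4 h5 rfl)
      obtain ⟨s1, s2, s3, s4⟩ := hS
      refine Wins.mk _ ⟨(a, b), (tx, ty), (x, y)⟩ (WhiteMove.rook (tx, ty) hbd ?_ ?_ ?_ n5 n6)
        s1 s2 s3 s4
      · refine ⟨?_, ?_⟩
        · intro e
          simp only [Prod.mk.injEq] at e
          exact n1 ⟨e.1.symm, e.2.symm⟩
        · rcases c2 with c2 | c2
          · left
            exact (Nat.eq_of_beq_eq_true c2).symm
          · right
            exact (Nat.eq_of_beq_eq_true c2).symm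
      · intro e
        simp only [Prod.mk.injEq] at e
        exact n3 e
      · intro e
        simp only [Prod.mk.injEq] at e
        exact n4 e

theorem wins_9_11 : Wins 9 11 start := by
  refine win_table _ 1 1 2 2 3 3 (by norm_num) (by norm_num) (by norm_num) (by norm_num)
    (by norm_num) (by norm_num) (by norm_num) (by norm_num) (by norm_num) (by norm_num)
    (by norm_num) (by norm_num) ?_ rfl
  decide +kernel

/-- **Classification.** White can force checkmate from the starting position on the board with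
`m` files and `n` ranks (possibly infinitely many) if and only if `m ≥ 9, n ≥ 11` or
`m ≥ 11, n ≥ 9`. -/
theorem wins_iff (m n : ℕ∞) (hm : 3 ≤ m) (hn : 3 ≤ n) :
    Wins m n start ↔ (9 ≤ m ∧ 11 ≤ n) ∨ (11 ≤ m ∧ 9 ≤ n) := by
  have hb : ∀ m n : ℕ∞, 3 ≤ m → 3 ≤ n → OnBoard m n start.bk := by
    intro m n h1 h2
    exact ⟨by decide, by decide, h1, h2⟩
  have hsw : start.swap = start := rfl
  constructor
  · intro h
    by_contra hcon
    have hcases : m ≤ 8 ∨ n ≤ 8 ∨ (m ≤ 10 ∧ n ≤ 10) := by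
      by_contra h1
      rw [not_or, not_or, not_and_or, not_le, not_le, not_le, not_le] at h1
      obtain ⟨h2, h3, h4⟩ := h1
      have h2' : (9 : ℕ∞) ≤ m := by
        have := Order.add_one_le_of_lt h2
        exact_mod_cast this
      have h3' : (9 : ℕ∞) ≤ n := by
        have := Order.add_one_le_of_lt h3
        exact_mod_cast this
      apply hcon
      rcases h4 with h4 | h4
      · right
        have := Order.add_one_le_of_lt h4
        exact ⟨by exact_mod_cast this, h3'⟩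
      · left
        have := Order.add_one_le_of_lt h4
        exact ⟨h2', by exact_mod_cast this⟩
    rcases hcases with h1 | h1 | ⟨h1, h2⟩
    · exact not_wins_8_top (h.mono h1 le_top (hb m n hm hn))
    · have h3 := h.swap
      rw [hsw] at h3
      exact not_wins_8_top (h3.mono h1 le_top (hb n m hn hm))
    · exact not_wins_10_10 (h.mono h1 h2 (hb m n hm hn))
  · rintro (⟨h1, h2⟩ | ⟨h1, h2⟩)
    · exact wins_9_11.mono h1 h2 (hb 9 11 (by exact_mod_cast (by norm_num : 3 ≤ 9))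
        (by exact_mod_cast (by norm_num : 3 ≤ 11)))
    · have h3 := wins_9_11.swap
      rw [hsw] at h3
      exact h3.mono h1 h2 (hb 11 9 (by exact_mod_cast (by norm_num : 3 ≤ 11))
        (by exact_mod_cast (by norm_num : 3 ≤ 9)))

end X294.KR
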